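import Pool.Agent.T6.H97.Kagome3

/-!
The WSK dynamics for 3 colours on the `n × n` periodic kagome lattice is ergodic exactly for `n = 2`.

A proper 3-colouring of the periodic kagome lattice is a proper 3-edge-colouring of the periodic
honeycomb graph, so every colour is a perfect matching, that is, a permutation of `(ℤ/n)²`. The
product of the three signs is invariant under Kempe changes, and for every `n ≥ 3` there are two
colourings for which it is different. For `n = 2` the ergodicity is checked.
-/

namespace Pool.Agent.Results.MP_11305c_co.KagomeThreeColours

open Pool.Agent.H411R2.WSK

theorem result : ∀ n : ℕ, 2 ≤ n → (WSKErgodic (kagome n) 3 ↔ n = 2) := by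
  intro n hn
  constructor
  · intro h
    by_contra hcon
    exact Pool.Agent.T6.H97.Kagome.kagome_not_ergodic (by omega) h
  · rintro rfl
    exact Pool.Agent.T6.H97.Kagome.kagome_two_ergodic

end Pool.Agent.Results.MP_11305c_co.KagomeThreeColours
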